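import Pool.Agent.H8.PL.Targets

/-! Module GR: the development of a grid. -/

set_option autoImplicit false

namespace Pool.Agent.H39.PL

open Pool.Agent.H8.PL

open Classical in
/-- a successor, if there is one -/
noncomputable def nx {V : Type} (E : V → V → Prop) (x : V) : V :=
  if h : ∃ y, E x y then h.choose else x

theorem nx_spec {V : Type} {E : V → V → Prop} {x : V} (h : ∃ y, E x y) : E x (nx E x) := by
  unfold nx
  rw [dif_pos h]
  exact h.choose_spec

/-- a line -/
theorem line {V : Type} [Finite V] (M : V → Prop) (E : V → V → Prop) (L R : V → Prop) (o : V)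
    (h1 : ∀ x y, E x y → M y ∧ ¬ L y) (h2 : ∀ x x' y, E x y → E x' y → x = x')
    (h3 : ∀ x, M x → ¬ R x → ∃ y, E x y) (hM : M o) (hL : L o) :
    ∃ W : ℕ, 0 < W ∧ (∀ x, x + 1 < W → E ((nx E)^[x] o) ((nx E)^[x + 1] o)) ∧
      ∀ x < W, M ((nx E)^[x] o) ∧ (R ((nx E)^[x] o) ↔ x + 1 = W) := by
  classical
  have key : ∀ k, (∀ j < k, ¬ R ((nx E)^[j] o)) → M ((nx E)^[k] o) ∧
      ∀ j < k, E ((nx E)^[j] o) ((nx E)^[j + 1] o) := by
    intro k
    induction k with
    | zero => intro _; exact ⟨hM, fun j hj => absurd hj (Nat.not_lt_zero j)⟩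
    | succ k ih =>
      intro hk
      obtain ⟨h4, h5⟩ := ih (fun j hj => hk j (by omega))
      have h6 : E ((nx E)^[k] o) ((nx E)^[k + 1] o) := by
        rw [Function.iterate_succ_apply']
        exact nx_spec (h3 _ h4 (hk k (by omega)))
      refine ⟨(h1 _ _ h6).1, ?_⟩
      intro j hj
      rcases Nat.lt_succ_iff_lt_or_eq.1 hj with hj | rfl
      exacts [h5 j hj, h6]
  have hex : ∃ k, R ((nx E)^[k] o) := by
    by_contra hne
    push Not at hne
    have hE : ∀ k, E ((nx E)^[k] o) ((nx E)^[k + 1] o) := fun k =>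
      (key (k + 1) (fun j _ => hne j)).2 k (by omega)
    have hinj : Function.Injective (fun k => (nx E)^[k] o) := by
      have hlt : ∀ i d, (nx E)^[i] o ≠ (nx E)^[i + (d + 1)] o := by
        intro i
        induction i with
        | zero =>
          intro d h
          rw [Nat.zero_add] at h
          exact (h1 _ _ (hE d)).2 (h ▸ hL)
        | succ i ih =>
          intro d h
          apply ih d
          have h4 := hE (i + (d + 1))
          rw [show i + (d + 1) + 1 = i + 1 + (d + 1) by ring, ← h] at h4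
          exact h2 _ _ _ (hE i) h4
      intro i j hij
      rcases lt_trichotomy i j with h | h | h
      · obtain ⟨d, rfl⟩ := Nat.exists_eq_add_of_lt h
        exact absurd hij (by simpa [add_assoc] using hlt i d)
      · exact h
      · obtain ⟨d, rfl⟩ := Nat.exists_eq_add_of_lt h
        exact absurd hij.symm (by simpa [add_assoc] using hlt j d)
    exact not_injective_infinite_finite _ hinj
  have hmin : ∀ j < Nat.find hex, ¬ R ((nx E)^[j] o) := fun j hj => Nat.find_min hex hj
  refine ⟨Nat.find hex + 1, by omega, ?_, ?_⟩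
  · intro x hx
    exact (key _ hmin).2 x (by omega)
  · intro x hx
    refine ⟨(key x (fun j hj => hmin j (by omega))).1, ?_⟩
    constructor
    · intro h
      have := Nat.find_min' hex h
      omega
    · intro h
      have : x = Nat.find hex := by omega
      rw [this]
      exact Nat.find_spec hex

theorem pf_gr : Z_GR := by
  intro V _ M E N L R B T o hE hN hEf hEi hNf hNi hEx hNx hMo hLo hBo hsq
  obtain ⟨W, hW, hWE, hWM⟩ := line M E L R o (fun x y h => ⟨(hE x y h).2.1, (hE x y h).2.2.2.1⟩)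
    hEi hEx hMo hLo
  obtain ⟨H, hH, hHN, hHM⟩ := line M N B T o (fun x y h => ⟨(hN x y h).2.1, (hN x y h).2.2.2.1⟩)
    hNi hNx hMo hBo
  set g : ℕ → ℕ → V := fun x y => (nx N)^[y] ((nx E)^[x] o) with hg
  have g0 : ∀ x, g x 0 = (nx E)^[x] o := fun x => rfl
  have gs : ∀ x y, g x (y + 1) = nx N (g x y) := fun x y => by
    simp only [hg]
    rw [Function.iterate_succ_apply']
  have g00 : ∀ y, g 0 y = (nx N)^[y] o := fun y => rfl
  -- transport along rows
  have row : ∀ (P : V → Prop) (y : ℕ), (∀ x, x + 1 < W → (P (g x y) ↔ P (g (x + 1) y))) →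
      ∀ x < W, (P (g x y) ↔ P (g 0 y)) := by
    intro P y h x
    induction x with
    | zero => intro _; exact Iff.rfl
    | succ x ih => intro hx; exact (h x hx).symm.trans (ih (by omega))
  have main : ∀ y < H, (∀ x < W, M (g x y) ∧ (T (g x y) ↔ y + 1 = H)) ∧
      ∀ x, x + 1 < W → E (g x y) (g (x + 1) y) := by
    intro y
    induction y with
    | zero =>
      intro hy
      have hEr : ∀ x, x + 1 < W → E (g x 0) (g (x + 1) 0) := fun x hx => hWE x hx
      refine ⟨fun x hx => ⟨(hWM x hx).1, ?_⟩, hEr⟩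
      rw [row T 0 (fun x hx => (hE _ _ (hEr x hx)).2.2.2.2.2) x hx]
      exact (hHM 0 hy).2
    | succ y ih =>
      intro hy
      obtain ⟨h1, h2⟩ := ih (by omega)
      have hNr : ∀ x < W, N (g x y) (g x (y + 1)) := by
        intro x hx
        rw [gs]
        apply nx_spec
        apply hNx _ (h1 x hx).1
        rw [(h1 x hx).2]
        omega
      have hEr : ∀ x, x + 1 < W → E (g x (y + 1)) (g (x + 1) (y + 1)) := by
        intro x hx
        obtain ⟨w, hw1, hw2⟩ := hsq _ _ _ (h2 x hx) (hNr x (by omega))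
        rw [hNf _ _ _ (hNr (x + 1) hx) hw2]
        exact hw1
      refine ⟨fun x hx => ⟨(hN _ _ (hNr x hx)).2.1, ?_⟩, hEr⟩
      rw [row T (y + 1) (fun x hx => (hE _ _ (hEr x hx)).2.2.2.2.2) x hx]
      exact (hHM (y + 1) hy).2
  have hNN : ∀ x y, x < W → y + 1 < H → N (g x y) (g x (y + 1)) := by
    intro x y hx hy
    obtain ⟨h1, _⟩ := main y (by omega)
    rw [gs]
    apply nx_spec
    apply hNx _ (h1 x hx).1
    rw [(h1 x hx).2]
    omega
  have hEE : ∀ x y, x + 1 < W → y < H → E (g x y) (g (x + 1) y) := fun x y hx hy =>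
    (main y hy).2 x hx
  have col : ∀ (P : V → Prop) (x : ℕ), (∀ y, y + 1 < H → (P (g x y) ↔ P (g x (y + 1)))) →
      ∀ y < H, (P (g x y) ↔ P (g x 0)) := by
    intro P x h y
    induction y with
    | zero => intro _; exact Iff.rfl
    | succ y ih => intro hy; exact (h y hy).symm.trans (ih (by omega))
  have hL : ∀ x < W, ∀ y < H, (L (g x y) ↔ x = 0) := by
    intro x hx y hy
    rw [col L x (fun y hy => (hN _ _ (hNN x y hx hy)).2.2.2.2.1) y hy]
    rcases Nat.eq_zero_or_pos x with rfl | h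
    · exact ⟨fun _ => rfl, fun _ => hLo⟩
    · obtain ⟨x, rfl⟩ := Nat.exists_eq_add_of_lt h
      rw [Nat.zero_add] at *
      refine ⟨fun h' => absurd h' (hE _ _ (hEE x 0 hx hH)).2.2.2.1, fun h' => by omega⟩
  have hR : ∀ x < W, ∀ y < H, (R (g x y) ↔ x + 1 = W) := by
    intro x hx y hy
    rw [col R x (fun y hy => (hN _ _ (hNN x y hx hy)).2.2.2.2.2) y hy]
    exact (hWM x hx).2
  have hB0 : ∀ x < W, B (g x 0) := by
    intro x hx
    rw [row B 0 (fun x hx => (hE _ _ (hEE x 0 hx hH)).2.2.2.2.1) x hx]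
    exact hBo
  have hB : ∀ x < W, ∀ y < H, (B (g x y) ↔ y = 0) := by
    intro x hx y hy
    rcases Nat.eq_zero_or_pos y with rfl | h
    · exact ⟨fun _ => rfl, fun _ => hB0 x hx⟩
    · obtain ⟨y, rfl⟩ := Nat.exists_eq_add_of_lt h
      rw [Nat.zero_add] at *
      refine ⟨fun h' => absurd h' (hN _ _ (hNN x y hx hy)).2.2.2.1, fun h' => by omega⟩
  have inj1 : ∀ x < W, ∀ x' < W, ∀ y < H, ∀ y' < H, g x y = g x' y' →
      g x 0 = g x' 0 ∧ y = y' := by
    intro x hx x' hx' y
    induction y with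
    | zero =>
      intro hy y' hy' h
      have : y' = 0 := (hB x' hx' y' hy').1 (h ▸ hB0 x hx)
      subst this
      exact ⟨h, rfl⟩
    | succ y ih =>
      intro hy y' hy' h
      rcases Nat.eq_zero_or_pos y' with rfl | h'
      · have := (hB x hx (y + 1) hy).1 (h ▸ hB0 x' hx')
        omega
      · obtain ⟨z, rfl⟩ := Nat.exists_eq_add_of_lt h'
        rw [Nat.zero_add] at *
        have h1 := hNN x y hx hy
        have h2 := hNN x' z hx' hy'
        rw [← h] at h2
        obtain ⟨h3, h4⟩ := ih (by omega) z (by omega) (hNi _ _ _ h1 h2)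
        exact ⟨h3, by omega⟩
  have inj2 : ∀ x < W, ∀ x' < W, g x 0 = g x' 0 → x = x' := by
    intro x
    induction x with
    | zero =>
      intro hx x' hx' h
      exact ((hL x' hx' 0 hH).1 (h ▸ (hL 0 hx 0 hH).2 rfl)).symm
    | succ x ih =>
      intro hx x' hx' h
      rcases Nat.eq_zero_or_pos x' with rfl | h'
      · have := (hL (x + 1) hx 0 hH).1 (h ▸ (hL 0 hx' 0 hH).2 rfl)
        omega
      · obtain ⟨z, rfl⟩ := Nat.exists_eq_add_of_lt h'
        rw [Nat.zero_add] at *
        have h1 := hEE x 0 hx hH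
        have h2 := hEE z 0 hx' hH
        rw [← h] at h2
        have := ih (by omega) z (by omega) (hEi _ _ _ h1 h2)
        omega
  refine ⟨W, H, g, hW, hH, rfl, hEE, hNN, ?_, ?_⟩
  · intro x hx y hy
    exact ⟨((main y hy).1 x hx).1, hL x hx y hy, hR x hx y hy, hB x hx y hy,
      ((main y hy).1 x hx).2⟩
  · intro x hx y hy x' hx' y' hy' h
    obtain ⟨h1, h2⟩ := inj1 x hx x' hx' y hy y' hy' h
    exact ⟨inj2 x hx x' hx' h1, h2⟩

end Pool.Agent.H39.PL
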